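import Pool.Agent.LibDimSpec.Final

/-!
No trigonometric polynomial has a graph whose dimension spectrum is a single number.
-/

namespace Pool.Agent.Results.MP_39a050_lc.TrigSpectrum

open Pool.Agent.LibDimSpec

theorem contDiff_of_isTrigPoly {f : ℝ → ℝ} (hf : IsTrigPoly f) : ContDiff ℝ 2 f := by
  obtain ⟨m, a, b, h⟩ := hf
  have : f = fun x => a 0 + ∑ k ∈ Finset.Icc 1 m,
      (a k * Real.cos (k * x) + b k * Real.sin (k * x)) := funext h
  rw [this]
  fun_prop

theorem result (U : List Bool →. List Bool) (hU : UniversalPrefixFree U)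
    (code : ℚ × ℚ → List Bool) (hcode : ComputableCoding code)
    (f : ℝ → ℝ) (hf : IsTrigPoly f) :
    ∃ x y : ℝ, effDim U code (x, f x) ≠ effDim U code (y, f y) := by
  by_contra hcon
  push Not at hcon
  obtain ⟨u, ⟨⟨a, b⟩, hab, rfl⟩, v, ⟨⟨c, d⟩, hcd, rfl⟩, huv⟩ :=
    spectrum_nontrivial hU hcode (contDiff_of_isTrigPoly hf)
  have h1 : b = f a := hab
  have h2 : d = f c := hcd
  subst h1 h2
  exact huv (hcon a c)

end Pool.Agent.Results.MP_39a050_lc.TrigSpectrum
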